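import Mathlib

set_option autoImplicit false

/-!
# MP_8e2370_an, Q1: images of half-circles under interlacing rational functions need not be convex

For `k = 3`, `p = (-1, 1, 3)`, `α = (100, 1, 100)` and `j = 1` the curve `R(C_1^+)` is not the
boundary of a closed convex set. On the half-circle, write `z = ((1-t^2) + 2ti)/(1+t^2)`, `t > 0`.
Then `R(z) = 99/2 - 50 (1+2t^2)/(1+4t^2) - i (50 t + 1/(2t) + 50 t/(1+4t^2))`. The point of the curve
with `t = 1/4` lies in the interior of the triangle with vertices the points `t = 1/10, 1/2, 4`.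
-/

namespace Pool.Agent.Results.MP_8e2370_an.NotConvex

/-- the rational function `R(z) = ∑ α_l / (z - p_l)` -/
noncomputable def R {k : ℕ} (p α : Fin k → ℝ) (z : ℂ) : ℂ := ∑ l, (α l : ℂ) / (z - (p l : ℂ))

/-- the open upper half of the circle with diameter `[a, b]` -/
def upperHalfCircle (a b : ℝ) : Set ℂ :=
  {z | 0 < z.im ∧ ‖z - (((a + b) / 2 : ℝ) : ℂ)‖ = (b - a) / 2}

/-- point of the half circle -/
noncomputable def zt (t : ℝ) : ℂ := ⟨(1 - t ^ 2) / (1 + t ^ 2), 2 * t / (1 + t ^ 2)⟩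

lemma zt_mem {t : ℝ} (ht : 0 < t) : zt t ∈ upperHalfCircle (-1) 1 := by
  have h1 : 0 < 1 + t ^ 2 := by positivity
  refine ⟨?_, ?_⟩
  · show 0 < 2 * t / (1 + t ^ 2)
    positivity
  · have e : zt t - ((((-1 : ℝ) + 1) / 2 : ℝ) : ℂ) = zt t := by norm_num
    rw [e]
    have h2 : ‖zt t‖ ^ 2 = 1 := by
      rw [← Complex.normSq_eq_norm_sq, Complex.normSq_apply]
      show (1 - t ^ 2) / (1 + t ^ 2) * ((1 - t ^ 2) / (1 + t ^ 2)) +
        2 * t / (1 + t ^ 2) * (2 * t / (1 + t ^ 2)) = 1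
      field_simp
      ring
    have h3 : ‖zt t‖ = 1 := by
      have h4 : (‖zt t‖ - 1) * (‖zt t‖ + 1) = 0 := by linear_combination h2
      rcases mul_eq_zero.mp h4 with h | h
      · linarith
      · have := norm_nonneg (zt t); linarith
    rw [h3]; norm_num

lemma zt_inv1 {t : ℝ} (_ht : 0 < t) : (zt t - ((-1 : ℝ) : ℂ))⁻¹ = ⟨1 / 2, -t / 2⟩ := by
  have h1 : (1 + t ^ 2 : ℝ) ≠ 0 := by positivity
  apply inv_eq_of_mul_eq_one_left
  apply Complex.ext
  · simp [zt]
    field_simp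
    ring
  · simp [zt]
    field_simp
    ring

lemma zt_inv2 {t : ℝ} (ht : 0 < t) : (zt t - ((1 : ℝ) : ℂ))⁻¹ = ⟨-1 / 2, -1 / (2 * t)⟩ := by
  have h1 : (1 + t ^ 2 : ℝ) ≠ 0 := by positivity
  apply inv_eq_of_mul_eq_one_left
  apply Complex.ext
  · simp [zt]
    field_simp
    ring
  · simp [zt]
    field_simp
    ring

lemma zt_inv3 {t : ℝ} (_ht : 0 < t) : (zt t - ((3 : ℝ) : ℂ))⁻¹ =
    ⟨-(1 + 2 * t ^ 2) / (2 * (1 + 4 * t ^ 2)), -t / (2 * (1 + 4 * t ^ 2))⟩ := by
  have h1 : (1 + t ^ 2 : ℝ) ≠ 0 := by positivity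
  have h2 : (1 + 4 * t ^ 2 : ℝ) ≠ 0 := by positivity
  apply inv_eq_of_mul_eq_one_left
  apply Complex.ext
  · simp [zt]
    field_simp
    ring
  · simp [zt]
    field_simp
    ring

/-- the poles -/
def pp : Fin 3 → ℝ := ![-1, 1, 3]

/-- the residues -/
def aa : Fin 3 → ℝ := ![100, 1, 100]

lemma R_zt {t : ℝ} (ht : 0 < t) : R pp aa (zt t) =
    ⟨99 / 2 - 50 * (1 + 2 * t ^ 2) / (1 + 4 * t ^ 2), -(50 * t + 1 / (2 * t) + 50 * t / (1 + 4 * t ^ 2))⟩ := by
  have h2 : (1 + 4 * t ^ 2 : ℝ) ≠ 0 := by positivity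
  unfold R
  rw [Fin.sum_univ_three]
  have e0 : pp 0 = -1 := rfl
  have e1 : pp 1 = 1 := rfl
  have e2 : pp 2 = 3 := rfl
  have f0 : aa 0 = 100 := rfl
  have f1 : aa 1 = 1 := rfl
  have f2 : aa 2 = 100 := rfl
  rw [e0, e1, e2, f0, f1, f2, div_eq_mul_inv, div_eq_mul_inv, div_eq_mul_inv, zt_inv1 ht, zt_inv2 ht,
    zt_inv3 ht]
  apply Complex.ext
  · simp
    field_simp
    ring
  · simp
    field_simp
    ring

/-- barycentric coordinates -/
lemma no_convex (K : Set ℂ) (hcl : IsClosed K) (hK : Convex ℝ K)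
    (h : frontier K = R pp aa '' upperHalfCircle (-1) 1) : False := by
  have hmem : ∀ t : ℝ, 0 < t → R pp aa (zt t) ∈ frontier K := by
    intro t ht
    rw [h]
    exact ⟨zt t, zt_mem ht, rfl⟩
  have hsub : frontier K ⊆ K := hcl.frontier_subset
  have hA := hsub (hmem (1 / 10) (by norm_num))
  have hB := hsub (hmem (1 / 2) (by norm_num))
  have hG := hsub (hmem 4 (by norm_num))
  have hD := hmem (1 / 4) (by norm_num)
  rw [R_zt (by norm_num)] at hA hB hG hD
  set U : Set ℂ := {w | 0 < 3739 / 3995 + (-2447 / 23970) * w.re + (-6 / 799) * w.im} ∩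
    ({w | 0 < 652 / 3995 + (933 / 7990) * w.re + (82 / 5593) * w.im} ∩
     {w | 0 < -396 / 3995 + (-176 / 11985) * w.re + (-40 / 5593) * w.im}) with hU
  have hUo : IsOpen U := by
    apply IsOpen.inter
    · exact isOpen_lt continuous_const (by fun_prop)
    · apply IsOpen.inter
      · exact isOpen_lt continuous_const (by fun_prop)
      · exact isOpen_lt continuous_const (by fun_prop)
  have hUK : U ⊆ K := by
    rintro w ⟨h1, h2, h3⟩
    simp only [Set.mem_setOf_eq] at h1 h2 h3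
    set a := 3739 / 3995 + (-2447 / 23970) * w.re + (-6 / 799) * w.im with ha
    set b := 652 / 3995 + (933 / 7990) * w.re + (82 / 5593) * w.im with hb
    set g := -396 / 3995 + (-176 / 11985) * w.re + (-40 / 5593) * w.im with hg
    have hsum : a + b + g = 1 := by rw [ha, hb, hg]; ring
    have hab : 0 < a + b := by linarith
    have hP := hK hA hB (div_nonneg h1.le hab.le) (div_nonneg h2.le hab.le)
      (by field_simp)
    have hQ := hK hP hG hab.le h3.le hsum
    convert hQ using 1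
    rw [smul_add, smul_smul, smul_smul, mul_div_cancel₀ _ hab.ne', mul_div_cancel₀ _ hab.ne']
    apply Complex.ext
    · simp
      rw [ha, hb, hg]
      ring
    · simp
      rw [ha, hb, hg]
      ring
  have hDU : (⟨99 / 2 - 50 * (1 + 2 * (1 / 4 : ℝ) ^ 2) / (1 + 4 * (1 / 4 : ℝ) ^ 2),
      -(50 * (1 / 4 : ℝ) + 1 / (2 * (1 / 4 : ℝ)) + 50 * (1 / 4 : ℝ) / (1 + 4 * (1 / 4 : ℝ) ^ 2))⟩ : ℂ) ∈ U := by
    refine ⟨?_, ?_, ?_⟩
    · simp only [Set.mem_setOf_eq]; norm_num
    · simp only [Set.mem_setOf_eq]; norm_num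
    · simp only [Set.mem_setOf_eq]; norm_num
  have hint := mem_interior.mpr ⟨U, hUK, hUo, hDU⟩
  exact (frontier_subset_iff_isClosed.mpr hcl hD |> fun _ => hD.2) hint

/-- Q1 has a negative answer: there are `k ≥ 3`, real poles `p_1 < ... < p_k`, positive residues and
an index `j` such that `R(C_j^+)` is not the boundary of any closed convex subset of `ℂ`. -/
theorem result : ∃ (k : ℕ) (p α : Fin k → ℝ) (j : ℕ) (hj : j + 1 < k),
    3 ≤ k ∧ StrictMono p ∧ (∀ l, 0 < α l) ∧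
    ∀ K : Set ℂ, IsClosed K → Convex ℝ K →
      frontier K ≠ R p α '' upperHalfCircle (p ⟨j, by omega⟩) (p ⟨j + 1, hj⟩) := by
  refine ⟨3, pp, aa, 0, by norm_num, le_refl _, ?_, ?_, ?_⟩
  · rw [Fin.strictMono_iff_lt_succ]
    intro i
    fin_cases i
    · show (-1 : ℝ) < 1
      norm_num
    · show (1 : ℝ) < 3
      norm_num
  · intro l
    fin_cases l
    · show (0 : ℝ) < 100
      norm_num
    · show (0 : ℝ) < 1
      norm_num
    · show (0 : ℝ) < 100
      norm_num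
  · intro K hcl hK h
    exact no_convex K hcl hK h

end Pool.Agent.Results.MP_8e2370_an.NotConvex
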